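import Pool.Agent.E8helper43.ER.Stm

set_option autoImplicit false

/-!
# Extension of isometries
-/

namespace Pool.Agent.E8helper33.ER

open Finset Pool.Agent.E8helper43.ER

theorem t_EXT : S_EXT := by
  intro ι _ hne m N φ ψ h
  classical
  obtain ⟨i0⟩ := hne
  set p : ι → Eu (N + m) := fun i => app 0 (φ i) with hp
  set q : ι → Eu (N + m) := fun i => app (ψ i) 0 with hq
  have hd : ∀ i j, dist (q i) (q j) = dist (p i) (p j) := by
    intro i j
    have h1 : dist (q i) (q j) ^ 2 = dist (p i) (p j) ^ 2 := by
      simp only [hp, hq]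
      rw [dist_app, dist_app, h, dist_self, dist_self]
      ring
    exact (pow_left_inj₀ dist_nonneg dist_nonneg two_ne_zero).1 h1
  have hin : ∀ i j, inner ℝ (q i - q i0) (q j - q i0) = inner ℝ (p i - p i0) (p j - p i0) := by
    intro i j
    rw [real_inner_eq_norm_mul_self_add_norm_mul_self_sub_norm_sub_mul_self_div_two,
      real_inner_eq_norm_mul_self_add_norm_mul_self_sub_norm_sub_mul_self_div_two]
    simp only [sub_sub_sub_cancel_right, ← dist_eq_norm, hd]
  let T : (ι → ℝ) →ₗ[ℝ] Eu (N + m) := Fintype.linearCombination ℝ (fun i => p i - p i0)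
  let T' : (ι → ℝ) →ₗ[ℝ] Eu (N + m) := Fintype.linearCombination ℝ (fun i => q i - q i0)
  have hn : ∀ c, ‖T' c‖ = ‖T c‖ := by
    intro c
    have h1 : inner ℝ (T' c) (T' c) = inner ℝ (T c) (T c) := by
      simp only [T, T', Fintype.linearCombination_apply, sum_inner, inner_sum,
        real_inner_smul_left, real_inner_smul_right, hin]
    rw [real_inner_self_eq_norm_sq, real_inner_self_eq_norm_sq] at h1
    exact (pow_left_inj₀ (norm_nonneg _) (norm_nonneg _) two_ne_zero).1 h1
  obtain ⟨s, hs⟩ := T.rangeRestrict.exists_rightInverse_of_surjective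
    (LinearMap.range_rangeRestrict T)
  have hs' : ∀ v : LinearMap.range T, T (s v) = v := by
    intro v
    have h1 := congrArg Subtype.val (LinearMap.congr_fun hs v)
    exact h1
  let L : LinearMap.range T →ₗᵢ[ℝ] Eu (N + m) :=
    { toLinearMap := T'.comp s
      norm_map' := by
        intro v
        show ‖T' (s v)‖ = ‖v‖
        rw [hn, hs']
        rfl }
  have hTe : ∀ i, T (Pi.single i 1) = p i - p i0 := by
    intro i
    simp only [T, Fintype.linearCombination_apply_single, one_smul]
  have hTe' : ∀ i, T' (Pi.single i 1) = q i - q i0 := by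
    intro i
    simp only [T', Fintype.linearCombination_apply_single, one_smul]
  have hL : ∀ i, L.extend (p i - p i0) = q i - q i0 := by
    intro i
    have h1 : L.extend (p i - p i0) = L ⟨T (Pi.single i 1), LinearMap.mem_range_self _ _⟩ := by
      rw [← LinearIsometry.extend_apply, ← hTe]
    rw [h1]
    show T' (s _) = _
    have h2 : T (s ⟨T (Pi.single i 1), LinearMap.mem_range_self _ _⟩ - Pi.single i 1) = 0 := by
      rw [map_sub, hs', sub_self]
    have h3 : T' (s ⟨T (Pi.single i 1), LinearMap.mem_range_self _ _⟩ - Pi.single i 1) = 0 := by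
      rw [← norm_eq_zero, hn, h2, norm_zero]
    rw [map_sub, sub_eq_zero] at h3
    rw [h3, hTe']
  refine ⟨fun v => L.extend (app 0 v - p i0) + q i0, ?_, ?_⟩
  · refine Isometry.of_dist_eq fun v w => ?_
    rw [dist_add_right, L.extend.dist_map, dist_sub_right]
    have h1 : dist (app (0 : Eu N) v) (app 0 w) ^ 2 = dist v w ^ 2 := by
      rw [dist_app, dist_self]
      ring
    exact (pow_left_inj₀ dist_nonneg dist_nonneg two_ne_zero).1 h1
  · intro i
    show L.extend (p i - p i0) + q i0 = q i
    rw [hL, sub_add_cancel]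

end Pool.Agent.E8helper33.ER
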